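import Pool.Agent.Q83.FF.Stm

set_option autoImplicit false

namespace Pool.Agent.Q166.FF

open Polynomial Finset Pool.Agent.Q83.FF

/-- Vieta for root vectors. -/
lemma coeff_P {d : ℕ} (a : Fin d → ℝ) (k : ℕ) (hk : k ≤ d) :
    (P a).coeff (d - k) = (-1) ^ k * MvPolynomial.eval a (MvPolynomial.esymm (Fin d) ℝ k) := by
  have h1 : P a = ((univ.val.map a).map fun t => X - C t).prod := by
    rw [Multiset.map_map]; rfl
  have hc : Multiset.card ((univ : Finset (Fin d)).val.map a) = d := by simp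
  have h2 := Multiset.prod_X_sub_C_coeff ((univ : Finset (Fin d)).val.map a) (k := d - k)
    (by rw [hc]; omega)
  rw [hc, show d - (d - k) = k by omega] at h2
  rw [h1, h2]
  congr 1
  have := MvPolynomial.aeval_esymm_eq_multiset_esymm (Fin d) ℝ (S := ℝ) k a
  rw [← this]
  simp [MvPolynomial.aeval_eq_eval]

lemma monic_P {d : ℕ} (a : Fin d → ℝ) : (P a).Monic :=
  monic_prod_of_monic _ _ fun i _ => monic_X_sub_C (a i)

lemma natDegree_P {d : ℕ} (a : Fin d → ℝ) : (P a).natDegree = d := by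
  unfold P
  rw [natDegree_prod_of_monic _ _ fun i _ => monic_X_sub_C (a i)]
  simp

lemma eval_esymm_one {d : ℕ} (a : Fin d → ℝ) :
    MvPolynomial.eval a (MvPolynomial.esymm (Fin d) ℝ 1) = ∑ i, a i := by
  simp [MvPolynomial.esymm_one]

lemma sum_sq {d : ℕ} (a : Fin d → ℝ) :
    ∑ i, a i ^ 2 = (∑ i, a i) ^ 2 - 2 * MvPolynomial.eval a (MvPolynomial.esymm (Fin d) ℝ 2) := by
  have h := MvPolynomial.mul_esymm_eq_sum (Fin d) ℝ 2
  have h2 := congrArg (MvPolynomial.eval a) h
  have h3 : (antidiagonal 2).filter (fun x : ℕ × ℕ => x.1 < 2) = {(0, 2), (1, 1)} := by decide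
  rw [h3, Finset.sum_pair (by decide)] at h2
  simp [MvPolynomial.esymm_one, MvPolynomial.psum] at h2
  linarith [h2]

end Pool.Agent.Q166.FF
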