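import Pool.Agent.Q83.FF.Stm

set_option autoImplicit false

namespace Pool.Agent.Q166.FF

open Polynomial Finset Pool.Agent.Q83.FF

/-- Ordered pairs of different `n`-subsets. -/
noncomputable def prs (d n : ℕ) : Finset (Finset (Fin d) × Finset (Fin d)) :=
  ((powersetCard n (univ : Finset (Fin d))) ×ˢ (powersetCard n (univ : Finset (Fin d)))).filter
    fun z => z.1 ≠ z.2

lemma mem_prs {d n : ℕ} (z : Finset (Fin d) × Finset (Fin d)) :
    z ∈ prs d n ↔ z.1.card = n ∧ z.2.card = n ∧ z.1 ≠ z.2 := by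
  simp [prs, mem_powersetCard, and_assoc]

/-- The symmetric polynomial that detects coincidences. -/
noncomputable def cphi (d n : ℕ) : MvPolynomial (Fin d) ℝ :=
  ∏ z ∈ prs d n, (∑ i ∈ z.1, MvPolynomial.X i - ∑ i ∈ z.2, MvPolynomial.X i)

lemma cphi_symm (d n : ℕ) : (cphi d n).IsSymmetric := by
  intro e
  unfold cphi
  rw [map_prod]
  refine prod_bij (fun z _ => (z.1.map e.toEmbedding, z.2.map e.toEmbedding)) ?_ ?_ ?_ ?_
  · intro z hz
    rw [mem_prs] at hz ⊢
    refine ⟨by simpa using hz.1, by simpa using hz.2.1, ?_⟩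
    intro h
    exact hz.2.2 (Finset.map_injective _ h)
  · intro z hz z' hz' h
    have h1 := congrArg Prod.fst h
    have h2 := congrArg Prod.snd h
    exact Prod.ext (Finset.map_injective _ h1) (Finset.map_injective _ h2)
  · intro z hz
    rw [mem_prs] at hz
    refine ⟨(z.1.map e.symm.toEmbedding, z.2.map e.symm.toEmbedding), ?_, ?_⟩
    · rw [mem_prs]
      refine ⟨by simpa using hz.1, by simpa using hz.2.1, ?_⟩
      intro h
      exact hz.2.2 (Finset.map_injective _ h)
    · ext x <;> simp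
  · intro z hz
    simp

theorem t_coinc (h_om1 : S_om1) (h_sym : S_sym) (h_poly2 : S_poly2) : S_coinc := by
  intro d n a a' b b' h0
  obtain ⟨E, hE⟩ := h_poly2 d a a' b b'
  obtain ⟨f, hf⟩ := h_sym d (cphi d n) (cphi_symm d n)
    (fun t => Om (a + t • a') (b + t • b')) E (fun t j => by
      rw [(h_om1 d (a + t • a') (b + t • b')).2.1]; exact hE t j)
  have hev : ∀ t, f.eval t = ∏ z ∈ prs d n, (∑ i ∈ z.1, Om (a + t • a') (b + t • b') i
      - ∑ i ∈ z.2, Om (a + t • a') (b + t • b') i) := by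
    intro t
    rw [hf]
    unfold cphi
    simp [map_prod, map_sum]
  have hne : f ≠ 0 := by
    intro h
    have h1 := hev 0
    rw [h, eval_zero] at h1
    obtain ⟨z, hz, hz0⟩ := prod_eq_zero_iff.mp h1.symm
    rw [mem_prs] at hz
    simp only [zero_smul, add_zero] at hz0
    exact hz.2.2 (h0 z.1 z.2 hz.1 hz.2.1 (by linarith))
  refine Set.Finite.subset (f.roots.toFinset.finite_toSet) ?_
  rintro t ⟨S, T, hS, hT, hST, heq⟩
  simp only [mem_coe, Multiset.mem_toFinset]
  rw [mem_roots hne, IsRoot.def, hev]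
  exact prod_eq_zero ((mem_prs (S, T)).mpr ⟨hS, hT, hST⟩) (by simp [heq])

end Pool.Agent.Q166.FF
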