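import Pool.Agent.Q166.FF.Base

set_option autoImplicit false

namespace Pool.Agent.Q166.FF

open Polynomial Finset Pool.Agent.Q83.FF

/-- Coefficients of the heat flow. -/
lemma heat_coeff (d : ℕ) (s : ℝ) (p : ℝ[X]) (j : ℕ) :
    (heat d s p).coeff j = ∑ k ∈ range (d + 1),
      (-(s / (2 * ((d : ℝ) - 1)))) ^ k / (Nat.factorial k : ℝ)
        * (((j + 2 * k).descFactorial (2 * k) : ℝ) * p.coeff (j + 2 * k)) := by
  unfold heat
  rw [finsetSum_coeff]
  refine sum_congr rfl fun k _ => ?_
  rw [coeff_C_mul, coeff_iterate_derivative, nsmul_eq_mul]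

theorem t_heatsum : S_heatsum := by
  intro d a c s hd h
  have hda : ∀ j, d < j → (P a).coeff j = 0 := fun j hj =>
    coeff_eq_zero_of_natDegree_lt (by rw [natDegree_P]; exact hj)
  have hlead : (P a).coeff d = 1 := by
    have := (monic_P a).coeff_natDegree
    rwa [natDegree_P] at this
  have h1 : (P c).coeff (d - 1) = (P a).coeff (d - 1) := by
    rw [h, heat_coeff, sum_eq_single 0]
    · simp
    · intro k _ hk
      rw [hda _ (by omega)]; simp
    · simp
  have h2 : (P c).coeff (d - 2) = (P a).coeff (d - 2) - d * s / 2 := by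
    have hne : ((d : ℝ) - 1) ≠ 0 := by
      have : (2 : ℝ) ≤ d := by exact_mod_cast hd
      intro h0; linarith
    rw [h, heat_coeff, sum_eq_add (a := 0) (b := 1) (by norm_num)]
    · have e1 : d - 2 + 2 * 1 = d := by omega
      rw [e1, hlead]
      have e2 : ((d.descFactorial (2 * 1) : ℕ) : ℝ) = d * (d - 1) := by
        obtain ⟨n, rfl⟩ : ∃ n, d = n + 2 := ⟨d - 2, by omega⟩
        simp [Nat.descFactorial]
        push_cast
        ring
      rw [e2]
      simp
      field_simp
      ring
    · intro k _ hk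
      rw [hda _ (by omega)]; simp
    · simp
    · intro h0
      exact absurd (mem_range.mpr (by omega)) h0
  rw [coeff_P c 1 (by omega), coeff_P a 1 (by omega), eval_esymm_one, eval_esymm_one] at h1
  rw [coeff_P c 2 hd, coeff_P a 2 hd] at h2
  have h3 : ∑ i, c i = ∑ i, a i := by linarith
  refine ⟨h3, ?_⟩
  rw [sum_sq, sum_sq, h3]
  norm_num at h2
  linarith

end Pool.Agent.Q166.FF
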