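import Pool.Agent.Q83.FF.Stm

set_option autoImplicit false

namespace Pool.Agent.Q166.FF

open Polynomial Finset Pool.Agent.Q83.FF

theorem t_lip (h_rr : S_rr) (h_sub : S_sub) (h_abel : S_abel) (h_sums : S_sums) : S_lip := by
  intro d a b c a' b' c' hc hc' hP hP'
  obtain ⟨c'', hc'', hP''⟩ := h_rr d (a + a') (b + b')
  obtain ⟨s1, q1⟩ := h_sums d a b c hP
  obtain ⟨s2, q2⟩ := h_sums d a' b' c' hP'
  obtain ⟨s3, q3⟩ := h_sums d (a + a') (b + b') c'' hP''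
  have hab := h_abel d c'' c'' (fun i => c i + c' i) hc'' (by
    rw [s3, sum_add_distrib, s1, s2]
    simp only [Pi.add_apply, sum_add_distrib]
    ring) (by
    intro k
    have := h_sub d k a b c a' b' c' c'' hc hc' hc'' hP hP' hP''
    rw [sum_add_distrib]
    exact this)
  -- Cauchy-Schwarz in the form 2 u v ≤ u² + v²
  have h1 : 2 * ∑ i, c'' i * (c i + c' i) ≤ ∑ i, c'' i ^ 2 + ∑ i, (c i + c' i) ^ 2 := by
    rw [mul_sum, ← sum_add_distrib]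
    exact sum_le_sum fun i _ => by nlinarith [sq_nonneg (c'' i - (c i + c' i))]
  have h2 : ∑ i, c'' i * c'' i = ∑ i, c'' i ^ 2 := sum_congr rfl fun i _ => by ring
  rw [h2] at hab
  have h3 : ∑ i, c'' i ^ 2 ≤ ∑ i, (c i + c' i) ^ 2 := by linarith
  have e1 : ∑ i, (c i + c' i) ^ 2 = ∑ i, c i ^ 2 + 2 * ∑ i, c i * c' i + ∑ i, c' i ^ 2 := by
    rw [mul_sum, ← sum_add_distrib, ← sum_add_distrib]
    exact sum_congr rfl fun i _ => by ring
  have e2 : ∑ i, (c i - c' i) ^ 2 = ∑ i, c i ^ 2 - 2 * ∑ i, c i * c' i + ∑ i, c' i ^ 2 := by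
    rw [mul_sum, ← sum_sub_distrib, ← sum_add_distrib]
    exact sum_congr rfl fun i _ => by ring
  have e3 : ∀ x y : Fin d → ℝ, ∑ i, (x + y) i ^ 2 =
      ∑ i, x i ^ 2 + 2 * ∑ i, x i * y i + ∑ i, y i ^ 2 := by
    intro x y
    rw [mul_sum, ← sum_add_distrib, ← sum_add_distrib]
    exact sum_congr rfl fun i _ => by simp only [Pi.add_apply]; ring
  have e4 : ∀ x y : Fin d → ℝ, ∑ i, (x i - y i) ^ 2 =
      ∑ i, x i ^ 2 - 2 * ∑ i, x i * y i + ∑ i, y i ^ 2 := by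
    intro x y
    rw [mul_sum, ← sum_sub_distrib, ← sum_add_distrib]
    exact sum_congr rfl fun i _ => by ring
  have e5 : ∀ x y : Fin d → ℝ, ∑ i, (x + y) i = ∑ i, x i + ∑ i, y i := by
    intro x y; simp [sum_add_distrib]
  rw [q3, e1, q1, q2, e3, e3, e5, e5] at h3
  rw [e2, q1, q2, e4, e4, sum_sub_distrib, sum_sub_distrib]
  have e6 : 2 / (d : ℝ) * ((∑ i, a i + ∑ i, a' i) * (∑ i, b i + ∑ i, b' i))
      = 2 / (d : ℝ) * ((∑ i, a i) * ∑ i, b i) + 2 / (d : ℝ) * ((∑ i, a' i) * ∑ i, b' i)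
        + 2 / (d : ℝ) * ((∑ i, a i) * ∑ i, b' i) + 2 / (d : ℝ) * ((∑ i, a' i) * ∑ i, b i) := by
    ring
  have e7 : 2 / (d : ℝ) * ((∑ i, a i - ∑ i, a' i) * (∑ i, b i - ∑ i, b' i))
      = 2 / (d : ℝ) * ((∑ i, a i) * ∑ i, b i) + 2 / (d : ℝ) * ((∑ i, a' i) * ∑ i, b' i)
        - 2 / (d : ℝ) * ((∑ i, a i) * ∑ i, b' i) - 2 / (d : ℝ) * ((∑ i, a' i) * ∑ i, b i) := by
    ring
  rw [e6] at h3
  rw [e7]
  linarith

end Pool.Agent.Q166.FF
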