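import Pool.Agent.Q83.FF.Stm

set_option autoImplicit false

namespace Pool.Agent.Q166.FF

open Polynomial Finset Pool.Agent.Q83.FF

lemma P_comp_perm {d : ℕ} (a : Fin d → ℝ) (s : Equiv.Perm (Fin d)) :
    P (fun i => a (s i)) = P a := by
  unfold P
  exact Equiv.prod_comp s (fun i => (X - C (a i)))

theorem t_om3 (h_om1 : S_om1) (h_smul : S_smul) (h_sums : S_sums) (h_uniq : S_uniq) : S_om3 := by
  refine ⟨?_, ?_, ?_⟩
  · intro d a b t ht
    obtain ⟨hm, hP, -⟩ := h_om1 d a b
    obtain ⟨-, -, hu⟩ := h_om1 d (t • a) (t • b)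
    symm
    apply hu
    · intro i j hij
      exact mul_le_mul_of_nonneg_left (hm hij) ht
    · exact h_smul.2 d a b (Om a b) t hP
  · intro d a b i
    obtain ⟨hm, hP, -⟩ := h_om1 d a b
    obtain ⟨-, -, hu⟩ := h_om1 d (-a) (-b)
    have h1 := h_smul.2 d a b (Om a b) (-1) hP
    have e1 : ∀ x : Fin d → ℝ, (-1 : ℝ) • x = -x := fun x => by simp
    rw [e1, e1, e1] at h1
    have h2 : P (fun i => (-(Om a b)) (Fin.revPerm i)) = conv d (P (-a)) (P (-b)) := by
      rw [P_comp_perm, h1]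
    have h3 := hu (fun i => (-(Om a b)) (Fin.revPerm i)) (by
      intro i j hij
      simp only [Pi.neg_apply, Fin.revPerm_apply, neg_le_neg_iff]
      exact hm (Fin.rev_le_rev.mpr hij)) h2
    rw [← h3]
    simp
  · intro d a b
    obtain ⟨-, hP, -⟩ := h_om1 d a b
    rw [(h_sums d a b _ hP).2]
    rcases Nat.eq_zero_or_pos d with hd | hd
    · subst hd; simp
    · have hd' : (0 : ℝ) < d := by exact_mod_cast hd
      have h1 : (∑ i, a i) ^ 2 ≤ d * ∑ i, a i ^ 2 := by
        have := sq_sum_le_card_mul_sum_sq (s := (univ : Finset (Fin d))) (f := a)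
        simpa using this
      have h2 : (∑ i, b i) ^ 2 ≤ d * ∑ i, b i ^ 2 := by
        have := sq_sum_le_card_mul_sum_sq (s := (univ : Finset (Fin d))) (f := b)
        simpa using this
      have h3 : 2 / (d : ℝ) * ((∑ i, a i) * ∑ i, b i) ≤ ∑ i, a i ^ 2 + ∑ i, b i ^ 2 := by
        rw [div_mul_eq_mul_div, div_le_iff₀ hd']
        nlinarith [sq_nonneg ((∑ i, a i) - ∑ i, b i)]
      linarith

end Pool.Agent.Q166.FF
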