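import Pool.Agent.Q166.FF.Base

set_option autoImplicit false

namespace Pool.Agent.Q166.FF

open Polynomial Finset Pool.Agent.Q83.FF

theorem t_sym : S_sym := by
  intro d phi hphi a E hE
  have hs := MvPolynomial.esymmAlgHom_surjective (σ := Fin d) (R := ℝ) (n := d)
    (by simp) ⟨phi, hphi⟩
  obtain ⟨g, hg⟩ := hs
  have hg' : MvPolynomial.aeval (fun i : Fin d => MvPolynomial.esymm (Fin d) ℝ (i + 1)) g = phi := by
    rw [← MvPolynomial.esymmAlgHom_apply, hg]
  refine ⟨MvPolynomial.aeval (fun i : Fin d => (-1 : ℝ[X]) ^ (i.val + 1) * E (d - (i.val + 1))) g, ?_⟩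
  intro t
  rw [← hg']
  have h1 : Polynomial.eval t (MvPolynomial.aeval
      (fun i : Fin d => (-1 : ℝ[X]) ^ (i.val + 1) * E (d - (i.val + 1))) g)
      = MvPolynomial.aeval (fun i : Fin d => (Polynomial.aeval t)
        ((-1 : ℝ[X]) ^ (i.val + 1) * E (d - (i.val + 1)))) g := by
    have := MvPolynomial.comp_aeval_apply (R := ℝ)
      (f := fun i : Fin d => (-1 : ℝ[X]) ^ (i.val + 1) * E (d - (i.val + 1)))
      (Polynomial.aeval t : ℝ[X] →ₐ[ℝ] ℝ) g
    rw [← this]
    simp [Polynomial.aeval_def, Polynomial.eval₂_eq_eval_map]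
  have h2 : MvPolynomial.eval (a t) (MvPolynomial.aeval
      (fun i : Fin d => MvPolynomial.esymm (Fin d) ℝ (i + 1)) g)
      = MvPolynomial.aeval (fun i : Fin d => MvPolynomial.aeval (a t)
        (MvPolynomial.esymm (Fin d) ℝ (i + 1))) g := by
    have := MvPolynomial.comp_aeval_apply (R := ℝ)
      (f := fun i : Fin d => MvPolynomial.esymm (Fin d) ℝ (i + 1))
      (MvPolynomial.aeval (a t) : MvPolynomial (Fin d) ℝ →ₐ[ℝ] ℝ) g
    rw [← this]
    simp [MvPolynomial.aeval_eq_eval]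
  rw [h1, h2]
  congr 2
  funext i
  have h3 := coeff_P (a t) (i.val + 1) (by omega)
  rw [hE] at h3
  simp only [map_mul, map_pow, map_neg, map_one, MvPolynomial.aeval_eq_eval]
  have h4 : (Polynomial.aeval t) (E (d - (i.val + 1))) = Polynomial.eval t (E (d - (i.val + 1))) := by
    simp [Polynomial.aeval_def, Polynomial.eval₂_eq_eval_map]
  rw [h4, h3, ← mul_assoc, ← mul_pow]
  simp

end Pool.Agent.Q166.FF
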